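import Pool.Agent.helper19.MX.SpecA

namespace MX

open Pool.Agent.helper53.AU AN
open scoped Classical Topology

/-- the coefficients of `X ^ 3 - b` -/
def HCB_c {L : Type} [Field L] (b : L) : ℕ → L := fun i =>
  match i with
  | 0 => -b
  | 3 => 1
  | _ => 0

theorem HCB_cont {L : Type} [Field L] [TopologicalSpace L] [IsTopologicalRing L] :
    Continuous (fun b : L => HCB_c b) := by
  refine continuous_pi (fun i => ?_)
  rcases i with _ | _ | _ | _ | i
  · exact continuous_neg
  · exact continuous_const
  · exact continuous_const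
  · exact continuous_const
  · exact continuous_const

theorem HCB_sum {L : Type} [Field L] (b x : L) :
    ∑ i ∈ Finset.range (3 + 1), HCB_c b i * x ^ i = x ^ 3 - b := by
  simp only [Finset.sum_range_succ, Finset.sum_range_zero, HCB_c]
  ring

theorem HCB_der {L : Type} [Field L] (b x : L) :
    ∑ i ∈ Finset.range (3 + 1), (i : L) * HCB_c b i * x ^ (i - 1) = 3 * x ^ 2 := by
  simp only [Finset.sum_range_succ, Finset.sum_range_zero, HCB_c]
  norm_num

theorem HCB : HCB_stmt := by
  intro L _ _ _ _ hH v hv U hU
  have h3 : (3 : L) ≠ 0 := by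
    have h2 : (2 : L) = 0 := CharTwo.two_eq_zero
    have : (3 : L) = 1 := by linear_combination h2
    rw [this]
    exact one_ne_zero
  have h := hH 3 (HCB_c (v ^ 3)) v (by rw [HCB_sum, sub_self]) (by
    rw [HCB_der]
    exact mul_ne_zero h3 (pow_ne_zero _ hv)) U hU
  have h1 := (HCB_cont (L := L)).continuousAt (x := v ^ 3)
  filter_upwards [h1.eventually h] with b hb
  obtain ⟨x, hx, hxb⟩ := hb
  rw [HCB_sum] at hxb
  exact ⟨x, hx, sub_eq_zero.mp hxb⟩

end MX
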