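import Pool.Agent.helper19.MX.SpecC

namespace MX

open Pool.Agent.helper53.AU AN
open scoped Classical Topology IntermediateField
open Finset (range powerset Icc)

theorem SEP_two (x : LS (ZMod 2)) : x + x = 0 := by
  apply LS.ext
  intro n
  rw [cf_add, cf_zero]
  exact CharTwo.add_self_eq_zero _

theorem SEP_ns (u v : LS (ZMod 2)) (h : u * u = sv * (v * v)) : u = 0 ∧ v = 0 := by
  have h1 : dd (u * u) = 0 := by
    rw [dd_mul, mul_comm u (dd u)]
    exact SEP_two _
  have h2 : dd (v * v) = 0 := by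
    rw [dd_mul, mul_comm v (dd v)]
    exact SEP_two _
  have h3 : dd sv = 1 := by
    rw [sv, dd_mono]
    have : (1 : LS (ZMod 2)) = LS.C 1 := (map_one _).symm
    rw [this, C_eq_mono]
    norm_num
  rw [h, dd_mul, h2, h3, one_mul, mul_zero, add_zero] at h1
  have hv : v = 0 := mul_self_eq_zero.mp h1
  rw [hv, mul_zero, mul_zero] at h
  exact ⟨mul_self_eq_zero.mp h, hv⟩

/-- the map to `Om` on all series over the field with two elements -/
noncomputable def SEP_j : LS (ZMod 2) →+* Om :=
  (algebraMap (LS kk) Om).comp (mp (algebraMap (ZMod 2) kk))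

theorem SEP_iO (z : Lam) : iO z = SEP_j (z : LS (ZMod 2)) := rfl

/-- the field generated by `s` -/
noncomputable abbrev SEP_F : Subfield Om := Subfield.closure ({iO sL} : Set Om)

theorem SEP_s_mem : iO sL ∈ SEP_F := Subfield.subset_closure rfl

theorem SEP_alg (z : Lam) : IsAlgebraic SEP_F (iO z) := by
  have h1 : IsAlgebraic (IntermediateField.adjoin (ZMod 2) ({sv} : Set (LS (ZMod 2)))) (z : LS (ZMod 2)) :=
    mem_algebraicClosure_iff.1 z.2
  obtain ⟨p, hp0, hp⟩ := h1
  have h2 : ∀ x ∈ IntermediateField.adjoin (ZMod 2) ({sv} : Set (LS (ZMod 2))), SEP_j x ∈ SEP_F := by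
    intro x hx
    induction hx using IntermediateField.adjoin_induction with
    | mem x hx =>
      rw [Set.mem_singleton_iff.mp hx]
      exact SEP_s_mem
    | algebraMap c =>
      have : ∀ c : ZMod 2, c = 0 ∨ c = 1 := by decide
      rcases this c with rfl | rfl
      · rw [map_zero, map_zero]
        exact SEP_F.zero_mem
      · rw [map_one, map_one]
        exact SEP_F.one_mem
    | add x y _ _ hx hy =>
      rw [map_add]
      exact SEP_F.add_mem hx hy
    | inv x _ hx =>
      rw [map_inv₀]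
      exact SEP_F.inv_mem hx
    | mul x y _ _ hx hy =>
      rw [map_mul]
      exact SEP_F.mul_mem hx hy
  let ψ : IntermediateField.adjoin (ZMod 2) ({sv} : Set (LS (ZMod 2))) →+* SEP_F :=
    { toFun := fun x => ⟨SEP_j x, h2 x x.2⟩
      map_one' := Subtype.ext (by simp)
      map_mul' := fun x y => Subtype.ext (by simp)
      map_zero' := Subtype.ext (by simp)
      map_add' := fun x y => Subtype.ext (by simp) }
  refine ⟨p.map ψ, ?_, ?_⟩
  · exact (Polynomial.map_ne_zero_iff ψ.injective).mpr hp0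
  · have h3 : SEP_j (Polynomial.aeval (z : LS (ZMod 2)) p) = Polynomial.aeval (iO z) (p.map ψ) := by
      rw [Polynomial.aeval_def, Polynomial.hom_eval₂, Polynomial.aeval_def, Polynomial.eval₂_map]
      rfl
    rw [← h3, hp, map_zero]

theorem SEP_two_Om : (2 : Om) = 0 := by
  have h1 : (2 : LS (ZMod 2)) = 0 := by
    have := SEP_two (1 : LS (ZMod 2))
    rwa [one_add_one_eq_two] at this
  have h2 := congrArg SEP_j h1
  rw [map_ofNat, map_zero] at h2
  exact h2

theorem SEP_sq (x : Om) (hx : x ∈ SEP_F) :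
    ∃ a ∈ SEP_F, ∃ b ∈ SEP_F, x = a * a + iO sL * (b * b) := by
  have h2 := SEP_two_Om
  induction hx using Subfield.closure_induction with
  | mem x hx =>
    refine ⟨0, SEP_F.zero_mem, 1, SEP_F.one_mem, ?_⟩
    rw [Set.mem_singleton_iff.mp hx]
    ring
  | one => exact ⟨1, SEP_F.one_mem, 0, SEP_F.zero_mem, by ring⟩
  | add x y _ _ hx hy =>
    obtain ⟨a, ha, b, hb, h⟩ := hx
    obtain ⟨c, hc, d, hd, h'⟩ := hy
    refine ⟨a + c, SEP_F.add_mem ha hc, b + d, SEP_F.add_mem hb hd, ?_⟩
    rw [h, h']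
    linear_combination (-(a * c) - iO sL * (b * d)) * h2
  | neg x _ hx =>
    obtain ⟨a, ha, b, hb, h⟩ := hx
    refine ⟨a, ha, b, hb, ?_⟩
    rw [h]
    linear_combination (-(a * a) - iO sL * (b * b)) * h2
  | inv x hx' hx =>
    obtain ⟨a, ha, b, hb, h⟩ := hx
    by_cases h0 : x = 0
    · refine ⟨0, SEP_F.zero_mem, 0, SEP_F.zero_mem, ?_⟩
      rw [h0, inv_zero]
      ring
    · refine ⟨a * x⁻¹, SEP_F.mul_mem ha (SEP_F.inv_mem hx'), b * x⁻¹,
        SEP_F.mul_mem hb (SEP_F.inv_mem hx'), ?_⟩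
      have e : a * x⁻¹ * (a * x⁻¹) + iO sL * (b * x⁻¹ * (b * x⁻¹)) =
          (a * a + iO sL * (b * b)) * (x⁻¹ * x⁻¹) := by ring
      rw [e, ← h]
      field_simp
  | mul x y _ _ hx hy =>
    obtain ⟨a, ha, b, hb, h⟩ := hx
    obtain ⟨c, hc, d, hd, h'⟩ := hy
    refine ⟨a * c + iO sL * (b * d), SEP_F.add_mem (SEP_F.mul_mem ha hc)
      (SEP_F.mul_mem SEP_s_mem (SEP_F.mul_mem hb hd)), a * d + b * c,
      SEP_F.add_mem (SEP_F.mul_mem ha hd) (SEP_F.mul_mem hb hc), ?_⟩
    rw [h, h']
    linear_combination (-2 * iO sL * (a * b * c * d)) * h2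

theorem SEP_ind (α β : Om) (hα : α ∈ (iO).fieldRange) (hβ : β ∈ (iO).fieldRange)
    (h : α * α = iO sL * (β * β)) : α = 0 ∧ β = 0 := by
  obtain ⟨u, rfl⟩ := hα
  obtain ⟨v, rfl⟩ := hβ
  rw [← map_mul, ← map_mul, ← map_mul] at h
  have h1 := iO.injective h
  have h2 := congrArg (fun w : Lam => (w : LS (ZMod 2))) h1
  have h3 := SEP_ns u v h2
  have hu : u = 0 := Subtype.ext h3.1
  have hv : v = 0 := Subtype.ext h3.2
  rw [hu, hv, map_zero]
  exact ⟨rfl, rfl⟩

theorem SEP : SEP_stmt := by
  intro z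
  have hint : IsIntegral SEP_F (iO z) := (SEP_alg z).isIntegral
  have hirr := minpoly.irreducible hint
  rw [IsSeparable, Polynomial.separable_iff_derivative_ne_zero hirr]
  intro hder
  have h2 : (2 : SEP_F) = 0 := Subtype.ext (by
    show ((2 : SEP_F) : Om) = 0
    exact SEP_two_Om)
  have hchar : CharP SEP_F 2 := CharTwo.of_one_ne_zero_of_two_eq_zero one_ne_zero h2
  have hchar' : CharP Om 2 := CharTwo.of_one_ne_zero_of_two_eq_zero one_ne_zero SEP_two_Om
  set f := minpoly SEP_F (iO z) with hf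
  set g := Polynomial.contract 2 f with hg
  have hfg : Polynomial.expand SEP_F 2 g = f := Polynomial.expand_contract 2 hder (by norm_num)
  -- square roots of the coefficients
  have hsq : ∀ c : SEP_F, ∃ a b : SEP_F, (c : Om) = a * a + iO sL * (b * b) := by
    intro c
    obtain ⟨a, ha, b, hb, h⟩ := SEP_sq c c.2
    exact ⟨⟨a, ha⟩, ⟨b, hb⟩, h⟩
  choose A B hAB using hsq
  set P : Polynomial SEP_F := ∑ i ∈ Finset.range (g.natDegree + 1), Polynomial.C (A (g.coeff i)) * Polynomial.X ^ i with hP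
  set Q : Polynomial SEP_F := ∑ i ∈ Finset.range (g.natDegree + 1), Polynomial.C (B (g.coeff i)) * Polynomial.X ^ i with hQ
  have hPv : Polynomial.aeval (iO z) P =
      ∑ i ∈ Finset.range (g.natDegree + 1), (A (g.coeff i) : Om) * iO z ^ i := by
    rw [hP, map_sum]
    refine Finset.sum_congr rfl (fun i _ => ?_)
    rw [map_mul, map_pow, Polynomial.aeval_X, Polynomial.aeval_C]
    rfl
  have hQv : Polynomial.aeval (iO z) Q =
      ∑ i ∈ Finset.range (g.natDegree + 1), (B (g.coeff i) : Om) * iO z ^ i := by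
    rw [hQ, map_sum]
    refine Finset.sum_congr rfl (fun i _ => ?_)
    rw [map_mul, map_pow, Polynomial.aeval_X, Polynomial.aeval_C]
    rfl
  have key : Polynomial.aeval (iO z) P * Polynomial.aeval (iO z) P =
      iO sL * (Polynomial.aeval (iO z) Q * Polynomial.aeval (iO z) Q) := by
    have h0 : Polynomial.aeval (iO z) f = 0 := minpoly.aeval _ _
    rw [← hfg, Polynomial.expand_aeval, Polynomial.aeval_eq_sum_range] at h0
    have h3 : ∑ i ∈ Finset.range (g.natDegree + 1), g.coeff i • (iO z ^ 2) ^ i =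
        Polynomial.aeval (iO z) P * Polynomial.aeval (iO z) P +
        iO sL * (Polynomial.aeval (iO z) Q * Polynomial.aeval (iO z) Q) := by
      rw [hPv, hQv, CharTwo.sum_mul_self, CharTwo.sum_mul_self, Finset.mul_sum, ← Finset.sum_add_distrib]
      refine Finset.sum_congr rfl (fun i _ => ?_)
      have e : g.coeff i • (iO z ^ 2) ^ i = (g.coeff i : Om) * (iO z ^ 2) ^ i := rfl
      rw [e, hAB (g.coeff i)]
      ring
    rw [h3] at h0
    have h4 := SEP_two_Om
    linear_combination h0 - iO sL * (Polynomial.aeval (iO z) Q * Polynomial.aeval (iO z) Q) * h4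
  have hle : SEP_F ≤ (iO).fieldRange := by
    rw [Subfield.closure_le]
    intro x hx
    rw [Set.mem_singleton_iff.mp hx]
    exact ⟨sL, rfl⟩
  have hmem : ∀ (c : ℕ → SEP_F), ∑ i ∈ Finset.range (g.natDegree + 1), (c i : Om) * iO z ^ i ∈ (iO).fieldRange := by
    intro c
    refine Subfield.sum_mem _ (fun i _ => ?_)
    have hzm : iO z ∈ (iO).fieldRange := ⟨z, rfl⟩
    exact Subfield.mul_mem _ (hle (c i).2) (Subfield.pow_mem _ hzm i)
  obtain ⟨hP0, hQ0⟩ := SEP_ind _ _ (by rw [hPv]; exact hmem _) (by rw [hQv]; exact hmem _) key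
  have hpos : 0 < f.natDegree := minpoly.natDegree_pos hint
  have hdeg : f.natDegree = g.natDegree * 2 := by
    rw [← hfg, Polynomial.natDegree_expand]
  have hz : ∀ c : ℕ → SEP_F, Polynomial.aeval (iO z) (∑ i ∈ Finset.range (g.natDegree + 1),
      Polynomial.C (c i) * Polynomial.X ^ i) = 0 → c g.natDegree = 0 := by
    intro c hc
    by_contra hne
    have h5 : (∑ i ∈ Finset.range (g.natDegree + 1), Polynomial.C (c i) * Polynomial.X ^ i : Polynomial SEP_F) ≠ 0 := by
      intro h
      apply hne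
      have := congrArg (fun q => Polynomial.coeff q g.natDegree) h
      simp only [Polynomial.finsetSum_coeff, Polynomial.coeff_C_mul_X_pow, Polynomial.coeff_zero] at this
      rw [Finset.sum_ite_eq] at this
      simpa using this
    have h6 := Polynomial.natDegree_le_of_dvd (minpoly.dvd SEP_F (iO z) hc) h5
    have h7 : (∑ i ∈ Finset.range (g.natDegree + 1), Polynomial.C (c i) * Polynomial.X ^ i : Polynomial SEP_F).natDegree ≤ g.natDegree := by
      refine Polynomial.natDegree_sum_le_of_forall_le _ _ (fun i hi => ?_)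
      refine (Polynomial.natDegree_C_mul_X_pow_le _ _).trans ?_
      have := Finset.mem_range.mp hi
      omega
    rw [← hf] at h6
    omega
  have hA0 := hz (fun i => A (g.coeff i)) hP0
  have hB0 := hz (fun i => B (g.coeff i)) hQ0
  have h8 := hAB (g.coeff g.natDegree)
  have hA1 : A (g.coeff g.natDegree) = 0 := hA0
  have hB1 : B (g.coeff g.natDegree) = 0 := hB0
  rw [hA1, hB1] at h8
  have h9 : g.coeff g.natDegree = 0 := Subtype.ext (by
    rw [h8]
    simp)
  have h10 : g = 0 := Polynomial.leadingCoeff_eq_zero.mp h9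
  rw [h10, Polynomial.natDegree_zero] at hdeg
  omega

end MX
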